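import Mathlib

/-!
# One-dimensional profiles and the local time estimate
-/

set_option autoImplicit false

namespace Pool.Agent.Helper57K9.Zomb

open Finset

/-- one step of the zombies, seen in one coordinate -/
noncomputable def Q (a : ℤ → ℝ) (j : ℤ) : ℝ :=
  if j = 0 then a 0 + a 1 / 2 + a (-1) / 2 else if 0 < j then a j / 2 + a (j + 1) / 2
  else a j / 2 + a (j - 1) / 2

/-- captured mass for the profile `a` -/
noncomputable def lam : List ℤ → (ℤ → ℝ) → ℝ
  | [], _ => 0
  | w :: δ, a => a 0 + lam δ fun j => Q a (j + w)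

noncomputable def unit (y : ℤ) : ℤ → ℝ := fun j => if j = y then 1 else 0

theorem Q_add (a b : ℤ → ℝ) (j : ℤ) : Q (fun i => a i + b i) j = Q a j + Q b j := by
  simp only [Q]; split_ifs <;> ring

theorem Q_smul (c : ℝ) (a : ℤ → ℝ) (j : ℤ) : Q (fun i => c * a i) j = c * Q a j := by
  simp only [Q]; split_ifs <;> ring

theorem lam_add (δ : List ℤ) : ∀ a b : ℤ → ℝ, lam δ (fun i => a i + b i) = lam δ a + lam δ b := by
  induction δ with
  | nil => intro a b; simp [lam]
  | cons w δ ih =>
    intro a b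
    simp only [lam]
    have : (fun j => Q (fun i => a i + b i) (j + w)) = fun j => Q a (j + w) + Q b (j + w) := by
      funext j; exact Q_add _ _ _
    rw [this, ih]
    ring

theorem lam_smul (c : ℝ) (δ : List ℤ) : ∀ a : ℤ → ℝ, lam δ (fun i => c * a i) = c * lam δ a := by
  induction δ with
  | nil => intro a; simp [lam]
  | cons w δ ih =>
    intro a
    simp only [lam]
    have : (fun j => Q (fun i => c * a i) (j + w)) = fun j => c * Q a (j + w) := by
      funext j; exact Q_smul _ _ _
    rw [this, ih]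
    ring

theorem Q_nonneg {a : ℤ → ℝ} (ha : ∀ j, 0 ≤ a j) (j : ℤ) : 0 ≤ Q a j := by
  simp only [Q]
  split_ifs
  · have := ha 0; have := ha 1; have := ha (-1); linarith
  · have := ha j; have := ha (j + 1); linarith
  · have := ha j; have := ha (j - 1); linarith

theorem Q_one (j : ℤ) : Q (fun _ => 1) j = 1 + unit 0 j := by
  simp only [Q, unit]; split_ifs <;> norm_num

theorem Q_unit_zero (j : ℤ) : Q (unit 0) j = unit 0 j := by
  rcases lt_trichotomy j 0 with h | h | h
  · simp only [Q, unit]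
    rw [if_neg (by omega), if_neg (by omega), if_neg (by omega), if_neg (by omega)]
    norm_num
  · subst h
    simp [Q, unit]
  · simp only [Q, unit]
    rw [if_neg (by omega), if_pos (by omega), if_neg (by omega), if_neg (by omega)]
    norm_num

theorem Q_unit_pos {y : ℤ} (hy : 0 < y) (j : ℤ) : Q (unit y) j = 1 / 2 * unit y j + 1 / 2 * unit (y - 1) j := by
  simp only [Q, unit]
  split_ifs <;> first | omega | norm_num

theorem Q_unit_neg {y : ℤ} (hy : y < 0) (j : ℤ) : Q (unit y) j = 1 / 2 * unit y j + 1 / 2 * unit (y + 1) j := by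
  simp only [Q, unit]
  split_ifs <;> first | omega | norm_num

theorem unit_shift (y w j : ℤ) : unit y (j + w) = unit (y - w) j := by
  simp only [unit]
  congr 1
  apply propext
  constructor <;> intro h <;> omega

noncomputable def G : ℕ → ℤ → ℝ
  | 0, x => max (-(x : ℝ)) 0
  | n + 1, x => (G n x + G n (x - 1)) / 2

theorem G_anti (n : ℕ) : ∀ x : ℤ, G n (x + 1) ≤ G n x := by
  induction n with
  | zero =>
    intro x
    simp only [G]
    push_cast
    apply max_le_max _ le_rfl
    linarith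
  | succ n ih =>
    intro x
    simp only [G]
    have h1 := ih x
    have h2 := ih (x - 1)
    rw [sub_add_cancel] at h2
    rw [show x + 1 - 1 = x by ring]
    linarith

theorem G_antitone (n : ℕ) {x y : ℤ} (h : x ≤ y) : G n y ≤ G n x :=
  antitone_int_of_succ_le (G_anti n) h

theorem G_lip (n : ℕ) : ∀ x : ℤ, G n (x - 1) ≤ G n x + 1 := by
  induction n with
  | zero =>
    intro x
    simp only [G]
    push_cast
    apply max_le
    · have := le_max_left (-(x : ℝ)) 0
      linarith
    · have := le_max_right (-(x : ℝ)) 0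
      linarith
  | succ n ih =>
    intro x
    simp only [G]
    have h1 := ih x
    have h2 := ih (x - 1)
    linarith

/-- total variation of the steps -/
def tv : List ℤ → ℤ
  | [] => 0
  | w :: δ => |w| + tv δ

theorem tv_nonneg (δ : List ℤ) : 0 ≤ tv δ := by
  induction δ with
  | nil => exact le_rfl
  | cons w δ ih => simp only [tv]; positivity

theorem lam_unit (δ : List ℤ) : ∀ y : ℤ, 2 * G δ.length (tv δ + |y|) ≤ lam δ (unit y) := by
  induction δ with
  | nil =>
    intro y
    simp only [List.length_nil, G, tv, lam, zero_add]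
    rw [max_eq_right]
    · norm_num
    · push_cast
      have := abs_nonneg (y : ℝ)
      linarith
  | cons w δ ih =>
    intro y
    simp only [lam, List.length_cons, tv, G]
    have hGanti := fun x y h => @G_antitone δ.length x y h
    rcases lt_trichotomy y 0 with hy | hy | hy
    · have h1 : (fun j => Q (unit y) (j + w)) =
          fun j => 1 / 2 * unit (y - w) j + 1 / 2 * unit (y + 1 - w) j := by
        funext j
        rw [Q_unit_neg hy, unit_shift, unit_shift]
      rw [h1, lam_add, lam_smul, lam_smul]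
      have h2 : unit y 0 = 0 := by simp only [unit]; rw [if_neg (by omega)]
      have h3 := ih (y - w)
      have h4 := ih (y + 1 - w)
      have h5 : G δ.length (|w| + tv δ + |y|) ≤ G δ.length (tv δ + |y - w|) := by
        apply G_antitone
        have := abs_sub y w
        linarith
      have h6 : G δ.length (|w| + tv δ + |y| - 1) ≤ G δ.length (tv δ + |y + 1 - w|) := by
        apply G_antitone
        have := abs_sub (y + 1) w
        have h7 : |y + 1| = |y| - 1 := by
          rw [abs_of_nonpos (by omega), abs_of_neg hy]; ring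
        linarith
      rw [h2]
      linarith
    · subst hy
      have h1 : (fun j => Q (unit 0) (j + w)) = unit (0 - w) := by
        funext j
        rw [Q_unit_zero, unit_shift]
      rw [h1]
      have h2 : unit 0 0 = 1 := by simp [unit]
      have h3 := ih (0 - w)
      have h4 : |0 - w| = |w| := by rw [zero_sub, abs_neg]
      rw [h4] at h3
      have h5 := G_lip δ.length (|w| + tv δ)
      rw [h2]
      rw [abs_zero, add_zero]
      rw [add_comm (tv δ)] at h3
      linarith
    · have h1 : (fun j => Q (unit y) (j + w)) =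
          fun j => 1 / 2 * unit (y - w) j + 1 / 2 * unit (y - 1 - w) j := by
        funext j
        rw [Q_unit_pos hy, unit_shift, unit_shift]
      rw [h1, lam_add, lam_smul, lam_smul]
      have h2 : unit y 0 = 0 := by simp only [unit]; rw [if_neg (by omega)]
      have h3 := ih (y - w)
      have h4 := ih (y - 1 - w)
      have h5 : G δ.length (|w| + tv δ + |y|) ≤ G δ.length (tv δ + |y - w|) := by
        apply G_antitone
        have := abs_sub y w
        linarith
      have h6 : G δ.length (|w| + tv δ + |y| - 1) ≤ G δ.length (tv δ + |y - 1 - w|) := by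
        apply G_antitone
        have := abs_sub (y - 1) w
        have h7 : |y - 1| = |y| - 1 := by
          rw [abs_of_nonneg (by omega), abs_of_pos hy]
        linarith
      rw [h2]
      linarith

theorem lam_one_cons (w : ℤ) (δ : List ℤ) :
    1 + lam δ (fun _ => 1) + 2 * G δ.length (tv δ + |w|) ≤ lam (w :: δ) fun _ => 1 := by
  simp only [lam]
  have h1 : (fun j : ℤ => Q (fun _ => 1) (j + w)) = fun j => 1 + unit (0 - w) j := by
    funext j
    rw [Q_one, unit_shift]
  rw [h1, lam_add δ (fun _ => 1)]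
  have h2 := lam_unit δ (0 - w)
  rw [zero_sub, abs_neg] at h2
  rw [zero_sub]
  linarith

/-- `E |B - x|`, `B` binomial `(n, 1/2)` -/
noncomputable def S : ℕ → ℤ → ℝ
  | 0, x => |(x : ℝ)|
  | n + 1, x => (S n x + S n (x - 1)) / 2

theorem G_add_G (n : ℕ) : ∀ x : ℤ, G n x + G n (n - x) = S n x := by
  induction n with
  | zero =>
    intro x
    simp only [G, S]
    push_cast
    rcases le_total 0 (x : ℝ) with h | h
    · rw [abs_of_nonneg h, max_eq_right (by linarith), max_eq_left (by linarith)]; ring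
    · rw [abs_of_nonpos h, max_eq_left (by linarith), max_eq_right (by linarith)]; ring
  | succ n ih =>
    intro x
    simp only [G, S]
    have h1 := ih x
    have h2 := ih (x - 1)
    rw [show ((n + 1 : ℕ) : ℤ) - x - 1 = n - x by push_cast; ring]
    rw [show (n : ℤ) - (x - 1) = ((n + 1 : ℕ) : ℤ) - x by push_cast; ring] at h2
    linarith

theorem quartic {s : ℝ} (hs : 0 < s) (u : ℝ) : 3 / (2 * s) * u ^ 2 - 1 / (2 * s ^ 3) * u ^ 4 ≤ |u| := by
  have h1 : u ^ 2 = |u| ^ 2 := (sq_abs u).symm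
  have h2 : u ^ 4 = |u| ^ 4 := by
    rw [show u ^ 4 = (u ^ 2) ^ 2 by ring, show |u| ^ 4 = (|u| ^ 2) ^ 2 by ring, sq_abs]
  rw [h1, h2]
  have h3 : 0 ≤ |u| := abs_nonneg u
  set w := |u|
  have h4 : w - (3 / (2 * s) * w ^ 2 - 1 / (2 * s ^ 3) * w ^ 4) =
      w * (w - s) ^ 2 * (w + 2 * s) / (2 * s ^ 3) := by
    field_simp
    ring
  have h5 : 0 ≤ w * (w - s) ^ 2 * (w + 2 * s) / (2 * s ^ 3) := by positivity
  linarith

theorem S_ge {s : ℝ} (hs : 0 < s) (n : ℕ) : ∀ x : ℤ,
    3 / (2 * s) * ((n : ℝ) / 4 + (x - n / 2) ^ 2) -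
    1 / (2 * s ^ 3) * ((3 * (n : ℝ) ^ 2 - 2 * n) / 16 + 3 / 2 * n * (x - n / 2) ^ 2 + (x - n / 2) ^ 4)
      ≤ S n x := by
  induction n with
  | zero =>
    intro x
    simp only [S]
    have := quartic hs (x : ℝ)
    push_cast
    have e : ∀ t : ℝ, t - 0 / 2 = t := fun t => by ring
    rw [e]
    linarith
  | succ n ih =>
    intro x
    simp only [S]
    have h1 := ih x
    have h2 := ih (x - 1)
    push_cast at h1 h2 ⊢
    have : 3 / (2 * s) * (((n : ℝ) + 1) / 4 + (x - (n + 1) / 2) ^ 2) -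
        1 / (2 * s ^ 3) * ((3 * ((n : ℝ) + 1) ^ 2 - 2 * (n + 1)) / 16 + 3 / 2 * (n + 1) * (x - (n + 1) / 2) ^ 2 +
          (x - (n + 1) / 2) ^ 4) =
        ((3 / (2 * s) * ((n : ℝ) / 4 + (x - n / 2) ^ 2) -
    1 / (2 * s ^ 3) * ((3 * (n : ℝ) ^ 2 - 2 * n) / 16 + 3 / 2 * n * (x - n / 2) ^ 2 + (x - n / 2) ^ 4)) +
        (3 / (2 * s) * ((n : ℝ) / 4 + ((x - 1 : ℝ) - n / 2) ^ 2) -
    1 / (2 * s ^ 3) * ((3 * (n : ℝ) ^ 2 - 2 * n) / 16 + 3 / 2 * n * ((x - 1 : ℝ) - n / 2) ^ 2 +
      ((x - 1 : ℝ) - n / 2) ^ 4))) / 2 := by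
      field_simp
      ring
    rw [this]
    linarith

theorem S_sqrt (n : ℕ) (x : ℤ) : Real.sqrt (n / 12) ≤ S n x := by
  rcases Nat.eq_zero_or_pos n with h0 | h0
  · subst h0
    simp only [S]
    norm_num
  set M : ℝ := (n : ℝ) / 4 + (x - n / 2) ^ 2 with hM
  have hn : (0 : ℝ) < n := by exact_mod_cast h0
  have hM0 : 0 < M := by positivity
  set s := Real.sqrt (3 * M) with hs
  have hs0 : 0 < s := Real.sqrt_pos.2 (by positivity)
  have hs2 : s ^ 2 = 3 * M := Real.sq_sqrt (by positivity)
  have h1 := S_ge hs0 n x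
  have h4 : (3 * (n : ℝ) ^ 2 - 2 * n) / 16 + 3 / 2 * n * (x - n / 2) ^ 2 + (x - n / 2) ^ 4 ≤ 3 * M ^ 2 := by
    rw [hM]
    nlinarith [sq_nonneg ((x - n / 2 : ℝ) ^ 2)]
  have h5 : s / 3 ≤ S n x := by
    refine le_trans ?_ h1
    rw [← hM]
    have h6 : 1 / (2 * s ^ 3) * ((3 * (n : ℝ) ^ 2 - 2 * n) / 16 + 3 / 2 * n * (x - n / 2) ^ 2 + (x - n / 2) ^ 4)
        ≤ 1 / (2 * s ^ 3) * (3 * M ^ 2) := by
      apply mul_le_mul_of_nonneg_left h4 (by positivity)
    have h7 : M = s ^ 2 / 3 := by linarith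
    have h8 : 3 / (2 * s) * M - 1 / (2 * s ^ 3) * (3 * M ^ 2) = s / 3 := by
      rw [h7]
      field_simp
      ring
    linarith
  refine le_trans ?_ h5
  rw [hs]
  rw [le_div_iff₀ (by norm_num)]
  have : Real.sqrt (n / 12) * 3 = Real.sqrt (9 * (n / 12)) := by
    rw [Real.sqrt_mul (by norm_num), show (9 : ℝ) = 3 ^ 2 by norm_num, Real.sqrt_sq (by norm_num)]
    ring
  rw [this]
  apply Real.sqrt_le_sqrt
  have : 0 ≤ ((x : ℝ) - n / 2) ^ 2 := sq_nonneg _
  rw [hM]
  linarith

/-- The captured mass over a path, both coordinates. -/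
theorem lam_total (δ : List (ℤ × ℤ)) (hδ : ∀ v ∈ δ, |v.1| + |v.2| ≤ 1) :
    ∑ j ∈ range δ.length, 2 * Real.sqrt (j / 12) ≤
      lam (δ.map Prod.snd) (fun _ => 1) + lam (δ.map Prod.fst) fun _ => 1 := by
  induction δ with
  | nil => simp [lam]
  | cons v δ ih =>
    have hv : |v.1| + |v.2| ≤ 1 := hδ v (by simp)
    have hδ' : ∀ v ∈ δ, |v.1| + |v.2| ≤ 1 := fun v hv => hδ v (by simp [hv])
    have htv : tv (δ.map Prod.fst) + tv (δ.map Prod.snd) ≤ δ.length := by
      clear ih hδ
      induction δ with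
      | nil => simp [tv]
      | cons w δ ih =>
        have h1 : |w.1| + |w.2| ≤ 1 := hδ' w (by simp)
        have h2 := ih fun v hv => hδ' v (by simp [hv])
        simp only [List.map_cons, tv, List.length_cons]
        push_cast
        linarith
    have ih' := ih hδ'
    rw [List.length_cons, sum_range_succ, List.map_cons, List.map_cons]
    have h1 := lam_one_cons v.2 (δ.map Prod.snd)
    have h2 := lam_one_cons v.1 (δ.map Prod.fst)
    rw [List.length_map] at h1 h2
    have h3 : G δ.length (tv (δ.map Prod.snd)) + G δ.length (tv (δ.map Prod.fst)) ≤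
        G δ.length (tv (δ.map Prod.snd) + |v.2|) + G δ.length (tv (δ.map Prod.fst) + |v.1|) + 1 := by
      have a1 := abs_nonneg v.1
      have a2 := abs_nonneg v.2
      have hcase : (|v.1| = 0 ∧ (|v.2| = 0 ∨ |v.2| = 1)) ∨ (|v.1| = 1 ∧ |v.2| = 0) := by omega
      have l1 := G_lip δ.length (tv (δ.map Prod.snd) + 1)
      have l2 := G_lip δ.length (tv (δ.map Prod.fst) + 1)
      rw [add_sub_cancel_right] at l1 l2
      rcases hcase with ⟨h, h' | h'⟩ | ⟨h, h'⟩
      · rw [h, h', add_zero, add_zero]; linarith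
      · rw [h, h', add_zero]; linarith
      · rw [h, h', add_zero]; linarith
    have h4 : S δ.length (tv (δ.map Prod.snd)) ≤
        G δ.length (tv (δ.map Prod.snd)) + G δ.length (tv (δ.map Prod.fst)) := by
      rw [← G_add_G]
      have : G δ.length (δ.length - tv (δ.map Prod.snd)) ≤ G δ.length (tv (δ.map Prod.fst)) :=
        G_antitone _ (by linarith)
      linarith
    have h5 := S_sqrt δ.length (tv (δ.map Prod.snd))
    linarith

theorem sum_sqrt (T : ℕ) (hT : 2 ≤ T) :
    (T : ℝ) * Real.sqrt T / 10 ≤ ∑ j ∈ range T, 2 * Real.sqrt ((j : ℝ) / 12) := by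
  have h1 : ∑ j ∈ (range T).filter (fun j => T ≤ 2 * j), 2 * Real.sqrt ((T : ℝ) / 24) ≤
      ∑ j ∈ range T, 2 * Real.sqrt ((j : ℝ) / 12) := by
    rw [sum_filter]
    refine sum_le_sum fun j _ => ?_
    split_ifs with h
    · have : Real.sqrt ((T : ℝ) / 24) ≤ Real.sqrt ((j : ℝ) / 12) := by
        apply Real.sqrt_le_sqrt
        have : (T : ℝ) ≤ 2 * j := by exact_mod_cast h
        linarith
      linarith
    · positivity
  refine le_trans ?_ h1
  rw [sum_const, nsmul_eq_mul]
  have h2 : (T : ℝ) / 2 - 1 / 2 ≤ (((range T).filter (fun j => T ≤ 2 * j)).card : ℝ) := by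
    have : T ≤ 2 * ((range T).filter (fun j => T ≤ 2 * j)).card + 1 := by
      have h3 : (range T).filter (fun j => T ≤ 2 * j) = Finset.Ico ((T + 1) / 2) T := by
        ext j; simp only [mem_filter, mem_range, mem_Ico]; omega
      rw [h3, Nat.card_Ico]
      omega
    have : (T : ℝ) ≤ 2 * (((range T).filter (fun j => T ≤ 2 * j)).card : ℝ) + 1 := by exact_mod_cast this
    linarith
  have h3 : Real.sqrt ((T : ℝ) / 24) = Real.sqrt T / Real.sqrt 24 := Real.sqrt_div (by positivity) _
  have h4 : Real.sqrt 24 ≤ 5 := by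
    rw [Real.sqrt_le_left (by norm_num)]; norm_num
  have h4' : 0 < Real.sqrt 24 := Real.sqrt_pos.2 (by norm_num)
  have h5 : Real.sqrt T / 5 ≤ Real.sqrt ((T : ℝ) / 24) := by
    rw [h3]
    exact div_le_div_of_nonneg_left (Real.sqrt_nonneg _) h4' h4
  have hT' : (2 : ℝ) ≤ T := by exact_mod_cast hT
  have h6 : (0 : ℝ) ≤ Real.sqrt T := Real.sqrt_nonneg _
  have h7 : (T : ℝ) / 4 ≤ (((range T).filter (fun j => T ≤ 2 * j)).card : ℝ) := by linarith
  calc (T : ℝ) * Real.sqrt T / 10 = (T : ℝ) / 4 * (2 * (Real.sqrt T / 5)) := by ring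
    _ ≤ _ := by
      apply mul_le_mul h7 _ (by positivity) (by positivity)
      linarith

end Pool.Agent.Helper57K9.Zomb
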