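import Mathlib

/-!
# Zombies and Survivors

The game, the probability `s_k(G)` that the survivor wins, and the zombie number.
-/

set_option autoImplicit false

namespace Pool.Agent.Helper57K9.Zomb

open Finset

variable {V : Type} [Fintype V] [DecidableEq V]

/-- The neighbours of `u` that lie on a shortest path from `u` to `s`: the possible moves of a zombie
at `u` when the survivor is at `s`. -/
noncomputable def closer (G : SimpleGraph V) (u s : V) : Finset V := by
  classical
  exact univ.filter fun w => G.Adj u w ∧ G.dist w s + 1 = G.dist u s

/-- A strategy of the survivor against `k` zombies is a map `σ` from histories to vertices; a history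
is the list of the configurations of the zombies so far, the most recent one first. `σ [z]` is the
survivor's starting vertex when the zombies start from `z`.  Legality: in every later round the
survivor moves to a neighbouring vertex or stays put. -/
def Legal (G : SimpleGraph V) {k : ℕ} (σ : List (Fin k → V) → V) : Prop :=
  ∀ (z' z : Fin k → V) (h : List (Fin k → V)),
    σ (z' :: z :: h) = σ (z :: h) ∨ G.Adj (σ (z :: h)) (σ (z' :: z :: h))

/-- `survive G σ T z h` is the conditional probability, given that the configurations of the zombies
so far are `z :: h` (so that the survivor is at `σ (z :: h)`), that the survivor is not eaten now nor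
in the next `T` rounds.  In each round the zombies move first, each of them uniformly at random and
independently to a neighbour closer to the survivor; then the survivor moves. -/
noncomputable def survive (G : SimpleGraph V) {k : ℕ} (σ : List (Fin k → V) → V) :
    ℕ → (Fin k → V) → List (Fin k → V) → ℝ
  | 0, z, h => by classical exact if ∃ i, z i = σ (z :: h) then 0 else 1
  | T + 1, z, h => by
      classical
      exact if ∃ i, z i = σ (z :: h) then 0 else
        (∑ z' ∈ Fintype.piFinset fun i => closer G (z i) (σ (z :: h)),
          if ∃ i, z' i = σ (z :: h) then 0 else survive G σ T z' (z :: h)) /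
        ((Fintype.piFinset fun i => closer G (z i) (σ (z :: h))).card : ℝ)

/-- `s_k(G)`: the probability that the survivor wins against `k` zombies, placed independently and
uniformly at random, under optimal play. -/
noncomputable def survivalProb (G : SimpleGraph V) (k : ℕ) : ℝ :=
  ⨆ σ : {σ : List (Fin k → V) → V // Legal G σ},
    (∑ z : Fin k → V, ⨅ T : ℕ, survive G σ.1 T z []) / (Fintype.card V : ℝ) ^ k

/-- The zombie number of `G`. -/
noncomputable def zombieNumber (G : SimpleGraph V) : ℕ := sInf {k : ℕ | survivalProb G k ≤ 1 / 2}

/-- The toroidal `n × n` grid. -/
def torus (n : ℕ) : SimpleGraph (Fin n × Fin n) :=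
  (SimpleGraph.cycleGraph n).boxProd (SimpleGraph.cycleGraph n)

end Pool.Agent.Helper57K9.Zomb
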