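import Mathlib
import Pool.Agent.Helper57K9.Zomb.Game

/-!
# Zombies and Survivors: the union bound over the survivor's paths
-/

set_option autoImplicit false

namespace Pool.Agent.Helper57K9.Zomb

open Finset

variable {V : Type} [Fintype V] [DecidableEq V]

/-! ### One zombie and a fixed path of the survivor -/

/-- The probability that one zombie, starting at `u`, does not catch a survivor who starts at `s` and
follows the path `l`. -/
noncomputable def esc (G : SimpleGraph V) : List V → V → V → ℝ
  | [], s, u => if u = s then 0 else 1
  | s' :: l, s, u => if u = s then 0 else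
      (∑ u' ∈ closer G u s, if u' = s then 0 else esc G l s' u') / ((closer G u s).card : ℝ)

/-- `l` is a lazy walk which starts at a vertex adjacent or equal to `s`. -/
def LW (G : SimpleGraph V) : V → List V → Prop
  | _, [] => True
  | s, s' :: l => (s' = s ∨ G.Adj s s') ∧ LW G s' l

/-- closed neighbourhood -/
noncomputable def nb (G : SimpleGraph V) (s : V) : Finset V := by
  classical
  exact univ.filter fun w => w = s ∨ G.Adj s w

/-- sum over all lazy walks of length `T` from `s` -/
noncomputable def psum (G : SimpleGraph V) : ℕ → V → (List V → ℝ) → ℝ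
  | 0, _, F => F []
  | T + 1, s, F => ∑ s' ∈ nb G s, psum G T s' fun l => F (s' :: l)

theorem esc_nonneg (G : SimpleGraph V) (l : List V) : ∀ s u, 0 ≤ esc G l s u := by
  induction l with
  | nil => intro s u; simp only [esc]; split_ifs <;> norm_num
  | cons s' l ih =>
    intro s u
    simp only [esc]
    split_ifs
    · exact le_rfl
    · refine div_nonneg (sum_nonneg fun u' _ => ?_) (Nat.cast_nonneg _)
      split_ifs
      · exact le_rfl
      · exact ih _ _

theorem esc_le_one (G : SimpleGraph V) (l : List V) : ∀ s u, esc G l s u ≤ 1 := by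
  induction l with
  | nil => intro s u; simp only [esc]; split_ifs <;> norm_num
  | cons s' l ih =>
    intro s u
    simp only [esc]
    split_ifs
    · norm_num
    · rcases Nat.eq_zero_or_pos (closer G u s).card with h0 | h0
      · rw [h0]; simp
      · rw [div_le_one (by exact_mod_cast h0)]
        calc _ ≤ ∑ u' ∈ closer G u s, (1 : ℝ) := by
              refine sum_le_sum fun u' _ => ?_
              split_ifs
              · norm_num
              · exact ih _ _
          _ = _ := by simp

theorem survive_nonneg (G : SimpleGraph V) {k : ℕ} (σ : List (Fin k → V) → V) (T : ℕ) :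
    ∀ z h, 0 ≤ survive G σ T z h := by
  classical
  induction T with
  | zero => intro z h; simp only [survive]; split_ifs <;> norm_num
  | succ T ih =>
    intro z h
    simp only [survive]
    split_ifs
    · exact le_rfl
    · refine div_nonneg (sum_nonneg fun u' _ => ?_) (Nat.cast_nonneg _)
      split_ifs
      · exact le_rfl
      · exact ih _ _

theorem psum_mono (G : SimpleGraph V) (T : ℕ) : ∀ (s : V) (F F' : List V → ℝ), (∀ l, F l ≤ F' l) →
    psum G T s F ≤ psum G T s F' := by
  induction T with
  | zero => intro s F F' h; exact h _
  | succ T ih =>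
    intro s F F' h
    simp only [psum]
    exact sum_le_sum fun s' _ => ih _ _ _ fun l => h _

theorem psum_nonneg (G : SimpleGraph V) (T : ℕ) : ∀ (s : V) (F : List V → ℝ), (∀ l, 0 ≤ F l) →
    0 ≤ psum G T s F := by
  induction T with
  | zero => intro s F h; exact h _
  | succ T ih =>
    intro s F h
    simp only [psum]
    exact sum_nonneg fun s' _ => ih _ _ fun l => h _

theorem psum_sum (G : SimpleGraph V) {ι : Type} (S : Finset ι) (T : ℕ) :
    ∀ (s : V) (F : ι → List V → ℝ),
    ∑ i ∈ S, psum G T s (F i) = psum G T s fun l => ∑ i ∈ S, F i l := by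
  induction T with
  | zero => intro s F; rfl
  | succ T ih =>
    intro s F
    simp only [psum]
    rw [sum_comm]
    exact sum_congr rfl fun s' _ => ih s' _

theorem psum_div (G : SimpleGraph V) (c : ℝ) (T : ℕ) :
    ∀ (s : V) (F : List V → ℝ), psum G T s F / c = psum G T s fun l => F l / c := by
  induction T with
  | zero => intro s F; rfl
  | succ T ih =>
    intro s F
    simp only [psum]
    rw [sum_div]
    exact sum_congr rfl fun s' _ => ih s' _

theorem psum_le (G : SimpleGraph V) {D : ℕ} (hD : ∀ s, (nb G s).card ≤ D) {B : ℝ} (hB : 0 ≤ B)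
    (T : ℕ) : ∀ (s : V) (F : List V → ℝ), (∀ l, l.length = T → LW G s l → F l ≤ B) →
    psum G T s F ≤ (D : ℝ) ^ T * B := by
  classical
  induction T with
  | zero => intro s F h; simpa [psum] using h [] rfl trivial
  | succ T ih =>
    intro s F h
    simp only [psum]
    calc _ ≤ ∑ s' ∈ nb G s, (D : ℝ) ^ T * B := by
          refine sum_le_sum fun s' hs' => ih _ _ fun l hl hw => h _ (by simp [hl]) ⟨?_, hw⟩
          simpa [nb] using hs'
      _ = (nb G s).card * ((D : ℝ) ^ T * B) := by simp
      _ ≤ D * ((D : ℝ) ^ T * B) := by
          refine mul_le_mul_of_nonneg_right (by exact_mod_cast hD s) (by positivity)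
      _ = _ := by ring

/-- The union bound: conditional on the survivor's path the zombies are independent. -/
theorem survive_le (G : SimpleGraph V) {k : ℕ} (σ : List (Fin k → V) → V) (hσ : Legal G σ) (T : ℕ) :
    ∀ z h, survive G σ T z h ≤
      psum G T (σ (z :: h)) fun l => ∏ i, esc G l (σ (z :: h)) (z i) := by
  classical
  induction T with
  | zero =>
    intro z h
    simp only [survive, psum]
    split_ifs with h1
    · exact prod_nonneg fun i _ => esc_nonneg _ _ _ _
    · push Not at h1
      rw [prod_eq_one]
      intro i _
      simp only [esc]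
      rw [if_neg (h1 i)]
  | succ T ih =>
    intro z h
    simp only [survive]
    split_ifs with h1
    · exact psum_nonneg _ _ _ _ fun l => prod_nonneg fun i _ => esc_nonneg _ _ _ _
    · push Not at h1
      set s := σ (z :: h) with hs
      have key : ∀ z' : Fin k → V, (if ∃ i, z' i = s then 0 else survive G σ T z' (z :: h)) ≤
          ∑ s' ∈ nb G s, psum G T s' fun l => ∏ i, (if z' i = s then 0 else esc G l s' (z' i)) := by
        intro z'
        have hn : ∀ s' ∈ nb G s, 0 ≤ psum G T s'
            fun l => ∏ i, (if z' i = s then 0 else esc G l s' (z' i)) := by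
          intro s' _
          refine psum_nonneg _ _ _ _ fun l => prod_nonneg fun i _ => ?_
          split_ifs
          · exact le_rfl
          · exact esc_nonneg _ _ _ _
        split_ifs with h2
        · exact sum_nonneg hn
        · push Not at h2
          have hmem : σ (z' :: z :: h) ∈ nb G s := by
            simp only [nb, mem_filter, mem_univ, true_and]
            exact hσ z' z h
          refine le_trans ?_ (single_le_sum hn hmem)
          refine (ih z' (z :: h)).trans (psum_mono _ _ _ _ _ fun l => le_of_eq ?_)
          refine prod_congr rfl fun i _ => ?_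
          rw [if_neg (h2 i)]
      calc _ ≤ (∑ z' ∈ Fintype.piFinset fun i => closer G (z i) s,
            ∑ s' ∈ nb G s, psum G T s' fun l => ∏ i, (if z' i = s then 0 else esc G l s' (z' i))) /
          ((Fintype.piFinset fun i => closer G (z i) s).card : ℝ) := by
            refine div_le_div_of_nonneg_right (sum_le_sum fun z' _ => key z') (Nat.cast_nonneg _)
        _ = _ := by
            rw [sum_comm, sum_div]
            simp only [psum]
            refine sum_congr rfl fun s' _ => ?_
            rw [psum_sum, psum_div]
            congr 1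
            funext l
            rw [← Finset.prod_univ_sum (fun i => closer G (z i) s)
              (fun i u' => if u' = s then 0 else esc G l s' u'), Fintype.card_piFinset]
            push_cast
            rw [← prod_div_distrib]
            refine prod_congr rfl fun i _ => ?_
            simp only [esc]
            rw [if_neg (h1 i)]

/-- The bound for the probability that the survivor wins. -/
theorem survivalProb_le (G : SimpleGraph V) [Nonempty V] {D : ℕ} (hD : ∀ s, (nb G s).card ≤ D) (T : ℕ)
    (E : ℝ) (hE0 : 0 ≤ E) (hE : ∀ s l, l.length = T → LW G s l → ∑ u, esc G l s u ≤ E) (k : ℕ) :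
    survivalProb G k ≤ Fintype.card V * (D : ℝ) ^ T * (E / Fintype.card V) ^ k := by
  classical
  have hne : Nonempty {σ : List (Fin k → V) → V // Legal G σ} :=
    ⟨⟨fun _ => Classical.arbitrary V, fun _ _ _ => Or.inl rfl⟩⟩
  have hc : (0 : ℝ) < Fintype.card V := by exact_mod_cast Fintype.card_pos
  refine ciSup_le fun σ => ?_
  have h1 : ∀ z : Fin k → V, (⨅ T : ℕ, survive G σ.1 T z []) ≤
      ∑ s, psum G T s fun l => ∏ i, esc G l s (z i) := by
    intro z
    have h2 : (⨅ T : ℕ, survive G σ.1 T z []) ≤ survive G σ.1 T z [] :=
      ciInf_le ⟨0, by rintro _ ⟨T', rfl⟩; exact survive_nonneg _ _ _ _ _⟩ T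
    refine h2.trans ((survive_le G σ.1 σ.2 T z []).trans ?_)
    exact single_le_sum (f := fun s => psum G T s fun l => ∏ i, esc G l s (z i))
      (fun s _ => psum_nonneg _ _ _ _ fun l => prod_nonneg fun i _ => esc_nonneg _ _ _ _)
      (mem_univ _)
  have h3 : (∑ z : Fin k → V, ⨅ T : ℕ, survive G σ.1 T z []) ≤
      Fintype.card V * ((D : ℝ) ^ T * E ^ k) := by
    calc _ ≤ ∑ z : Fin k → V, ∑ s, psum G T s fun l => ∏ i, esc G l s (z i) :=
          sum_le_sum fun z _ => h1 z
      _ = ∑ s, psum G T s fun l => (∑ u, esc G l s u) ^ k := by
          rw [sum_comm]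
          refine sum_congr rfl fun s _ => ?_
          rw [psum_sum]
          congr 1
          funext l
          rw [Finset.sum_pow']
          simp
      _ ≤ ∑ s : V, (D : ℝ) ^ T * E ^ k := by
          refine sum_le_sum fun s _ => psum_le G hD (by positivity) T s _ fun l hl hw => ?_
          exact pow_le_pow_left₀ (sum_nonneg fun u _ => esc_nonneg _ _ _ _) (hE s l hl hw) k
      _ = _ := by simp
  rw [div_pow, div_le_iff₀ (by positivity)]
  calc _ ≤ _ := h3
    _ = _ := by field_simp

end Pool.Agent.Helper57K9.Zomb
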