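import Mathlib
import Pool.Agent.Helper57K9.Zomb.Defs

/-!
# Distances in the toroidal grid
-/

set_option autoImplicit false

namespace Pool.Agent.Helper57K9.Zomb

open Finset SimpleGraph

variable {m : ℕ}

/-- the cycle, on `ZMod` -/
abbrev Cy (m : ℕ) : SimpleGraph (ZMod (m + 3)) := (cycleGraph (m + 3) : SimpleGraph (Fin (m + 3)))

theorem Cy_adj (u v : ZMod (m + 3)) : (Cy m).Adj u v ↔ u - v = 1 ∨ v - u = 1 :=
  cycleGraph_adj (n := m + 1) (u := u) (v := v)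

theorem Cy_connected : (Cy m).Connected := cycleGraph_connected (n := m + 2)

theorem walk_int {u v : ZMod (m + 3)} (p : (Cy m).Walk u v) :
    ∃ y : ℤ, y.natAbs ≤ p.length ∧ (y : ZMod (m + 3)) = u - v := by
  induction p with
  | nil => exact ⟨0, by simp, by simp⟩
  | @cons a b c h p ih =>
    obtain ⟨y, hy, hy'⟩ := ih
    rcases (Cy_adj a b).1 h with h1 | h1
    · refine ⟨y + 1, ?_, ?_⟩
      · rw [Walk.length_cons]; omega
      · push_cast; rw [hy', ← h1]; ring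
    · refine ⟨y - 1, ?_, ?_⟩
      · rw [Walk.length_cons]; omega
      · push_cast; rw [hy', ← h1]; ring

theorem Cy_dist_le (v : ZMod (m + 3)) (j : ℕ) (e : ZMod (m + 3)) (he : e = 1 ∨ e = -1) :
    (Cy m).dist (v + j * e) v ≤ j := by
  induction j with
  | zero => simp
  | succ j ih =>
    have h1 : (Cy m).Adj (v + ((j + 1 : ℕ) : ZMod (m + 3)) * e) (v + j * e) := by
      rw [Cy_adj]
      rcases he with rfl | rfl
      · left; push_cast; ring
      · right; push_cast; ring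
    calc _ ≤ (Cy m).dist (v + ((j + 1 : ℕ) : ZMod (m + 3)) * e) (v + j * e) + (Cy m).dist (v + j * e) v :=
          Cy_connected.dist_triangle
      _ ≤ 1 + j := by
          have : (Cy m).dist (v + ((j + 1 : ℕ) : ZMod (m + 3)) * e) (v + j * e) = 1 :=
            dist_eq_one_iff_adj.2 h1
          omega
      _ = _ := by ring

theorem Cy_dist (v : ZMod (m + 3)) (x : ℤ) (hx : 2 * x.natAbs ≤ m + 3) :
    (Cy m).dist (v + x) v = x.natAbs := by
  apply le_antisymm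
  · rcases Int.natAbs_eq x with h | h
    · have h1 := Cy_dist_le v x.natAbs 1 (Or.inl rfl)
      have h2 : ((x.natAbs : ℕ) : ZMod (m + 3)) = (x : ZMod (m + 3)) := by
        rw [← Int.cast_natCast, ← h]
      rw [h2, mul_one] at h1
      exact h1
    · have h1 := Cy_dist_le v x.natAbs (-1) (Or.inr rfl)
      have h2 : (x : ZMod (m + 3)) = -((x.natAbs : ℕ) : ZMod (m + 3)) := by
        conv_lhs => rw [h]
        rw [Int.cast_neg, Int.cast_natCast]
      rw [h2]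
      rw [mul_neg_one] at h1
      exact h1
  · obtain ⟨p, hp⟩ := Cy_connected.exists_walk_length_eq_dist (v + (x : ZMod (m + 3))) v
    obtain ⟨y, hy, hy'⟩ := walk_int p
    rw [← hp]
    refine le_trans ?_ hy
    apply ZMod.natAbs_min_of_le_div_two (m + 3)
    · rw [hy']; ring
    · omega

/-- the torus, on `ZMod` -/
abbrev To (m : ℕ) : SimpleGraph (ZMod (m + 3) × ZMod (m + 3)) := (Cy m).boxProd (Cy m)

/-- displacement -/
def pr (m : ℕ) (p : ℤ × ℤ) : ZMod (m + 3) × ZMod (m + 3) := ((p.1 : ZMod (m + 3)), (p.2 : ZMod (m + 3)))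

theorem pr_add (p q : ℤ × ℤ) : pr m (p + q) = pr m p + pr m q := by
  simp [pr]

/-- `ℓ¹` norm -/
def nrm (p : ℤ × ℤ) : ℕ := p.1.natAbs + p.2.natAbs

theorem To_dist (s : ZMod (m + 3) × ZMod (m + 3)) (p : ℤ × ℤ) (h1 : 2 * p.1.natAbs ≤ m + 3)
    (h2 : 2 * p.2.natAbs ≤ m + 3) : (To m).dist (s + pr m p) s = nrm p := by
  have h3 := edist_boxProd (G := Cy m) (H := Cy m) (s + pr m p) s
  have hc : (To m).Connected := Cy_connected.boxProd Cy_connected
  have h4 : ((To m).dist (s + pr m p) s : ℕ∞) = (To m).edist (s + pr m p) s :=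
    (hc _ _).coe_dist_eq_edist
  have h5 : ((Cy m).dist (s + pr m p).1 s.1 : ℕ∞) = (Cy m).edist (s + pr m p).1 s.1 :=
    (Cy_connected _ _).coe_dist_eq_edist
  have h6 : ((Cy m).dist (s + pr m p).2 s.2 : ℕ∞) = (Cy m).edist (s + pr m p).2 s.2 :=
    (Cy_connected _ _).coe_dist_eq_edist
  have h7 : (Cy m).dist (s + pr m p).1 s.1 = p.1.natAbs := Cy_dist s.1 p.1 h1
  have h8 : (Cy m).dist (s + pr m p).2 s.2 = p.2.natAbs := Cy_dist s.2 p.2 h2
  rw [← h5, ← h6, h7, h8, ← h4] at h3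
  exact_mod_cast h3

theorem pr_e1 : pr m (1, 0) = (1, 0) := by simp [pr]
theorem pr_e1' : pr m (-1, 0) = (-1, 0) := by simp [pr]
theorem pr_e2 : pr m (0, 1) = (0, 1) := by simp [pr]
theorem pr_e2' : pr m (0, -1) = (0, -1) := by simp [pr]

theorem nrm_one {v : ℤ × ℤ} (h : nrm v = 1) : v = (1, 0) ∨ v = (-1, 0) ∨ v = (0, 1) ∨ v = (0, -1) := by
  obtain ⟨a, b⟩ := v
  simp only [nrm] at h
  simp only [Prod.mk.injEq]
  omega

theorem To_adj (s : ZMod (m + 3) × ZMod (m + 3)) (w : ZMod (m + 3) × ZMod (m + 3)) :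
    (To m).Adj s w ↔ ∃ v : ℤ × ℤ, nrm v = 1 ∧ w = s + pr m v := by
  rw [boxProd_adj, Cy_adj, Cy_adj]
  obtain ⟨s1, s2⟩ := s
  obtain ⟨w1, w2⟩ := w
  constructor
  · rintro (⟨h | h, h'⟩ | ⟨h | h, h'⟩)
    · refine ⟨(-1, 0), by simp [nrm], ?_⟩
      rw [pr_e1']
      simp only at h h'
      rw [Prod.mk_add_mk, Prod.mk.injEq]
      refine ⟨?_, by rw [h', add_zero]⟩
      rw [← h]; ring
    · refine ⟨(1, 0), by simp [nrm], ?_⟩
      rw [pr_e1]
      simp only at h h'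
      rw [Prod.mk_add_mk, Prod.mk.injEq]
      refine ⟨?_, by rw [h', add_zero]⟩
      rw [← h]; ring
    · refine ⟨(0, -1), by simp [nrm], ?_⟩
      rw [pr_e2']
      simp only at h h'
      rw [Prod.mk_add_mk, Prod.mk.injEq]
      refine ⟨by rw [h', add_zero], ?_⟩
      rw [← h]; ring
    · refine ⟨(0, 1), by simp [nrm], ?_⟩
      rw [pr_e2]
      simp only at h h'
      rw [Prod.mk_add_mk, Prod.mk.injEq]
      refine ⟨by rw [h', add_zero], ?_⟩
      rw [← h]; ring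
  · rintro ⟨v, hv, hw⟩
    rcases nrm_one hv with rfl | rfl | rfl | rfl
    · rw [pr_e1, Prod.mk_add_mk, Prod.mk.injEq] at hw
      left
      simp only
      rw [hw.1, hw.2]
      exact ⟨Or.inr (by ring), by ring⟩
    · rw [pr_e1', Prod.mk_add_mk, Prod.mk.injEq] at hw
      left
      simp only
      rw [hw.1, hw.2]
      exact ⟨Or.inl (by ring), by ring⟩
    · rw [pr_e2, Prod.mk_add_mk, Prod.mk.injEq] at hw
      right
      simp only
      rw [hw.1, hw.2]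
      exact ⟨Or.inr (by ring), by ring⟩
    · rw [pr_e2', Prod.mk_add_mk, Prod.mk.injEq] at hw
      right
      simp only
      rw [hw.1, hw.2]
      exact ⟨Or.inl (by ring), by ring⟩

/-- A displacement `q` is a neighbour of `p` closer to the origin. -/
def Cl (p q : ℤ × ℤ) : Prop := ∃ v : ℤ × ℤ, nrm v = 1 ∧ q = p + v ∧ nrm q + 1 = nrm p

theorem mem_closer (s : ZMod (m + 3) × ZMod (m + 3)) {p q : ℤ × ℤ} (h : Cl p q)
    (h1 : 2 * p.1.natAbs ≤ m + 3) (h2 : 2 * p.2.natAbs ≤ m + 3) :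
    s + pr m q ∈ closer (To m) (s + pr m p) s := by
  obtain ⟨v, hv, rfl, hq⟩ := h
  simp only [closer, mem_filter, mem_univ, true_and]
  refine ⟨(To_adj _ _).2 ⟨v, hv, by rw [pr_add]; ring⟩, ?_⟩
  have h3 : 2 * (p + v).1.natAbs ≤ m + 3 ∧ 2 * (p + v).2.natAbs ≤ m + 3 := by
    rcases nrm_one hv with rfl | rfl | rfl | rfl <;>
    · simp only [nrm, Prod.fst_add, Prod.snd_add] at hq ⊢
      omega
  rw [To_dist s p h1 h2, To_dist s (p + v) h3.1 h3.2, hq]

theorem closer_mem (s : ZMod (m + 3) × ZMod (m + 3)) {p : ℤ × ℤ} {w : ZMod (m + 3) × ZMod (m + 3)}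
    (h1 : 2 * p.1.natAbs + 2 ≤ m + 3) (h2 : 2 * p.2.natAbs + 2 ≤ m + 3)
    (hw : w ∈ closer (To m) (s + pr m p) s) : ∃ q, Cl p q ∧ w = s + pr m q := by
  simp only [closer, mem_filter, mem_univ, true_and] at hw
  obtain ⟨h3, h4⟩ := hw
  obtain ⟨v, hv, rfl⟩ := (To_adj _ _).1 h3
  have h5 : s + pr m p + pr m v = s + pr m (p + v) := by rw [pr_add]; ring
  rw [h5] at h4 ⊢
  have h6 : 2 * (p + v).1.natAbs ≤ m + 3 ∧ 2 * (p + v).2.natAbs ≤ m + 3 := by
    rcases nrm_one hv with rfl | rfl | rfl | rfl <;>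
    · simp only [Prod.fst_add, Prod.snd_add]
      omega
  rw [To_dist s p (by omega) (by omega), To_dist s (p + v) h6.1 h6.2] at h4
  exact ⟨p + v, ⟨v, hv, rfl, h4⟩, rfl⟩

/-- the move in the first coordinate towards `0` -/
def m1 (p : ℤ × ℤ) : ℤ × ℤ := (p.1 - p.1.sign, p.2)
def m2 (p : ℤ × ℤ) : ℤ × ℤ := (p.1, p.2 - p.2.sign)

theorem Cl_cases {p q : ℤ × ℤ} (h : Cl p q) : (p.1 ≠ 0 ∧ q = m1 p) ∨ (p.2 ≠ 0 ∧ q = m2 p) := by
  obtain ⟨v, hv, rfl, hq⟩ := h
  obtain ⟨a, b⟩ := p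
  rcases nrm_one hv with rfl | rfl | rfl | rfl
  · have ha : a < 0 := by simp only [nrm, Prod.mk_add_mk, add_zero] at hq; omega
    left
    refine ⟨ha.ne, ?_⟩
    simp only [m1, Int.sign_eq_neg_one_of_neg ha, Prod.mk_add_mk, Prod.mk.injEq]
    omega
  · have ha : 0 < a := by simp only [nrm, Prod.mk_add_mk, add_zero] at hq; omega
    left
    refine ⟨ha.ne', ?_⟩
    simp only [m1, Int.sign_eq_one_of_pos ha, Prod.mk_add_mk, Prod.mk.injEq]
    omega
  · have ha : b < 0 := by simp only [nrm, Prod.mk_add_mk, add_zero] at hq; omega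
    right
    refine ⟨ha.ne, ?_⟩
    simp only [m2, Int.sign_eq_neg_one_of_neg ha, Prod.mk_add_mk, Prod.mk.injEq]
    omega
  · have ha : 0 < b := by simp only [nrm, Prod.mk_add_mk, add_zero] at hq; omega
    right
    refine ⟨ha.ne', ?_⟩
    simp only [m2, Int.sign_eq_one_of_pos ha, Prod.mk_add_mk, Prod.mk.injEq]
    omega

theorem Cl_m1 {p : ℤ × ℤ} (h : p.1 ≠ 0) : Cl p (m1 p) := by
  obtain ⟨a, b⟩ := p
  rcases lt_or_gt_of_ne h with ha | ha
  · refine ⟨(1, 0), by simp [nrm], ?_, ?_⟩ <;> simp only [m1, nrm] at * <;>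
    rw [Int.sign_eq_neg_one_of_neg ha]
    · simp
    · omega
  · refine ⟨(-1, 0), by simp [nrm], ?_, ?_⟩ <;> simp only [m1, nrm] at * <;>
    rw [Int.sign_eq_one_of_pos ha]
    · simp; ring
    · omega

theorem Cl_m2 {p : ℤ × ℤ} (h : p.2 ≠ 0) : Cl p (m2 p) := by
  obtain ⟨a, b⟩ := p
  rcases lt_or_gt_of_ne h with ha | ha
  · refine ⟨(0, 1), by simp [nrm], ?_, ?_⟩ <;> simp only [m2, nrm] at * <;>
    rw [Int.sign_eq_neg_one_of_neg ha]
    · simp
    · omega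
  · refine ⟨(0, -1), by simp [nrm], ?_, ?_⟩ <;> simp only [m2, nrm] at * <;>
    rw [Int.sign_eq_one_of_pos ha]
    · simp; ring
    · omega

theorem card_closer_le_two (s : ZMod (m + 3) × ZMod (m + 3)) {p : ℤ × ℤ}
    (h1 : 2 * p.1.natAbs + 2 ≤ m + 3) (h2 : 2 * p.2.natAbs + 2 ≤ m + 3) :
    (closer (To m) (s + pr m p) s).card ≤ 2 := by
  have : closer (To m) (s + pr m p) s ⊆ {s + pr m (m1 p), s + pr m (m2 p)} := by
    intro w hw
    obtain ⟨q, hq, rfl⟩ := closer_mem s h1 h2 hw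
    rcases Cl_cases hq with ⟨-, rfl⟩ | ⟨-, rfl⟩ <;> simp
  exact (card_le_card this).trans card_le_two

theorem card_closer_le_one (s : ZMod (m + 3) × ZMod (m + 3)) {p : ℤ × ℤ}
    (h1 : 2 * p.1.natAbs + 2 ≤ m + 3) (h2 : 2 * p.2.natAbs + 2 ≤ m + 3) (h : p.1 = 0 ∨ p.2 = 0) :
    (closer (To m) (s + pr m p) s).card ≤ 1 := by
  have : closer (To m) (s + pr m p) s ⊆ {if p.1 = 0 then s + pr m (m2 p) else s + pr m (m1 p)} := by
    intro w hw
    obtain ⟨q, hq, rfl⟩ := closer_mem s h1 h2 hw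
    rcases Cl_cases hq with ⟨h', rfl⟩ | ⟨h', rfl⟩
    · rw [if_neg h']; simp
    · rw [if_pos (by tauto)]; simp
  exact (card_le_card this).trans (by simp)

theorem pr_inj {p q : ℤ × ℤ} (h1 : (p.1 - q.1).natAbs < m + 3) (h2 : (p.2 - q.2).natAbs < m + 3)
    (h : pr m p = pr m q) : p = q := by
  simp only [pr, Prod.mk.injEq] at h
  obtain ⟨h3, h4⟩ := h
  have key : ∀ a b : ℤ, (a - b).natAbs < m + 3 → (a : ZMod (m + 3)) = (b : ZMod (m + 3)) → a = b := by
    intro a b hab h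
    rw [ZMod.intCast_eq_intCast_iff_dvd_sub] at h
    have h5 : ((m + 3 : ℕ) : ℤ) ∣ (b - a) := h
    have h6 := Int.eq_zero_of_abs_lt_dvd h5 (by rw [Int.abs_eq_natAbs]; omega)
    omega
  exact Prod.ext (key _ _ h1 h3) (key _ _ h2 h4)

end Pool.Agent.Helper57K9.Zomb
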