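import Mathlib
import Pool.Agent.Helper57K9.Zomb.Torus
import Pool.Agent.Helper57K9.Zomb.OneD

/-!
# The mass captured along a path
-/

set_option autoImplicit false

namespace Pool.Agent.Helper57K9.Zomb

open Finset SimpleGraph

section General

variable {V : Type} [Fintype V] [DecidableEq V]

/-- one step of the zombies, applied to a mass distribution (mass at `s` is dropped) -/
noncomputable def P (G : SimpleGraph V) (s : V) (w : V → ℝ) (u' : V) : ℝ :=
  ∑ u, if u = s then 0 else if u' ∈ closer G u s then w u / ((closer G u s).card : ℝ) else 0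

/-- the captured mass -/
noncomputable def Cap (G : SimpleGraph V) (l : List V) (s : V) (w : V → ℝ) : ℝ :=
  ∑ u, w u * (1 - esc G l s u)

theorem Cap_nonneg (G : SimpleGraph V) (l : List V) (s : V) (w : V → ℝ) (hw : ∀ u, 0 ≤ w u) :
    0 ≤ Cap G l s w :=
  sum_nonneg fun u _ => mul_nonneg (hw u) (by have := esc_le_one G l s u; linarith)

theorem P_nonneg (G : SimpleGraph V) (s : V) (w : V → ℝ) (hw : ∀ u, 0 ≤ w u) (u' : V) :
    0 ≤ P G s w u' := by
  refine sum_nonneg fun u _ => ?_
  split_ifs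
  · exact le_rfl
  · exact div_nonneg (hw u) (Nat.cast_nonneg _)
  · exact le_rfl

theorem one_sub_esc (G : SimpleGraph V) (l : List V) (s s' u : V) (hu : u ≠ s) :
    (∑ u' ∈ closer G u s, (if u' = s then 1 else 1 - esc G l s' u')) / ((closer G u s).card : ℝ) ≤
      1 - esc G (s' :: l) s u := by
  simp only [esc]
  rw [if_neg hu]
  rcases Nat.eq_zero_or_pos (closer G u s).card with h0 | h0
  · rw [h0]; simp
  · have h1 : (0 : ℝ) < (closer G u s).card := by exact_mod_cast h0
    have h2 : (1 : ℝ) = (∑ u' ∈ closer G u s, (1 : ℝ)) / ((closer G u s).card : ℝ) := by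
      rw [sum_const, nsmul_eq_mul, mul_one, div_self h1.ne']
    conv_rhs => rw [h2, ← sub_div, ← sum_sub_distrib]
    apply div_le_div_of_nonneg_right _ h1.le
    refine sum_le_sum fun u' _ => ?_
    split_ifs
    · norm_num
    · exact le_rfl

theorem Cap_cons (G : SimpleGraph V) (l : List V) (s s' : V) (w : V → ℝ) (hw : ∀ u, 0 ≤ w u) :
    P G s w s + Cap G l s' (fun u' => if u' = s then 0 else P G s w u') ≤ Cap G (s' :: l) s w := by
  have h1 : ∑ u, (if u = s then 0 else w u *
      ((∑ u' ∈ closer G u s, (if u' = s then 1 else 1 - esc G l s' u')) / ((closer G u s).card : ℝ))) ≤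
      Cap G (s' :: l) s w := by
    refine sum_le_sum fun u _ => ?_
    split_ifs with h
    · exact mul_nonneg (hw u) (by have := esc_le_one G (s' :: l) s u; linarith)
    · exact mul_le_mul_of_nonneg_left (one_sub_esc G l s s' u h) (hw u)
  refine le_trans (le_of_eq ?_) h1
  have h2 : P G s w s + Cap G l s' (fun u' => if u' = s then 0 else P G s w u') =
      ∑ u', P G s w u' * (if u' = s then 1 else 1 - esc G l s' u') := by
    unfold Cap
    rw [← Finset.add_sum_erase univ (fun u' => P G s w u' * (if u' = s then 1 else 1 - esc G l s' u'))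
      (mem_univ s)]
    rw [← Finset.add_sum_erase univ (fun u' => (if u' = s then 0 else P G s w u') * (1 - esc G l s' u'))
      (mem_univ s)]
    rw [if_pos rfl, if_pos rfl, mul_one, zero_mul, zero_add]
    congr 1
    refine sum_congr rfl fun u' hu' => ?_
    have : u' ≠ s := (mem_erase.1 hu').1
    rw [if_neg this, if_neg this]
  rw [h2]
  unfold P
  simp_rw [sum_mul]
  rw [sum_comm]
  refine sum_congr rfl fun u _ => ?_
  by_cases hu : u = s
  · simp [hu]
  · simp only [if_neg hu]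
    rw [sum_div, mul_sum]
    rw [← sum_subset (subset_univ (closer G u s))]
    · refine sum_congr rfl fun u' hu' => ?_
      rw [if_pos hu']
      ring
    · intro u' _ hu'
      rw [if_neg hu', zero_mul]

theorem P_ge_sum (G : SimpleGraph V) (s : V) (w : V → ℝ) (hw : ∀ u, 0 ≤ w u) (u' : V) (A : Finset V)
    (hA : ∀ u ∈ A, u ≠ s ∧ u' ∈ closer G u s) :
    ∑ u ∈ A, w u / ((closer G u s).card : ℝ) ≤ P G s w u' := by
  unfold P
  refine le_trans (le_of_eq ?_) (sum_le_sum_of_subset_of_nonneg (subset_univ A) ?_)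
  · refine sum_congr rfl fun u hu => ?_
    rw [if_neg (hA u hu).1, if_pos (hA u hu).2]
  · intro u _ _
    split_ifs
    · exact le_rfl
    · exact div_nonneg (hw u) (Nat.cast_nonneg _)
    · exact le_rfl

end General

variable {m : ℕ}

/-- the transition probability of a displacement -/
noncomputable def cf (q : ℤ × ℤ) : ℝ := if q.1 = 0 ∨ q.2 = 0 then 1 else 1 / 2

theorem shift_inj (s : ZMod (m + 3) × ZMod (m + 3)) {p q : ℤ × ℤ}
    (h1 : 2 * p.1.natAbs + 2 ≤ m + 3) (h2 : 2 * p.2.natAbs + 2 ≤ m + 3)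
    (h3 : 2 * q.1.natAbs + 2 ≤ m + 3) (h4 : 2 * q.2.natAbs + 2 ≤ m + 3)
    (h : s + pr m p = s + pr m q) : p = q :=
  pr_inj (m := m) (by omega) (by omega) (add_left_cancel h)

theorem P_ge (s : ZMod (m + 3) × ZMod (m + 3)) (w : ZMod (m + 3) × ZMod (m + 3) → ℝ)
    (hw : ∀ u, 0 ≤ w u) (p : ℤ × ℤ) (B : Finset (ℤ × ℤ))
    (hB : ∀ q ∈ B, Cl q p ∧ 2 * q.1.natAbs + 2 ≤ m + 3 ∧ 2 * q.2.natAbs + 2 ≤ m + 3) :
    ∑ q ∈ B, cf q * w (s + pr m q) ≤ P (To m) s w (s + pr m p) := by
  have hinj : Set.InjOn (fun q => s + pr m q) (B : Set (ℤ × ℤ)) := by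
    intro q hq q' hq' h
    obtain ⟨-, h1, h2⟩ := hB q hq
    obtain ⟨-, h3, h4⟩ := hB q' hq'
    exact shift_inj s h1 h2 h3 h4 h
  refine le_trans ?_ (P_ge_sum (To m) s w hw (s + pr m p) (B.image fun q => s + pr m q) ?_)
  · rw [sum_image hinj]
    refine sum_le_sum fun q hq => ?_
    obtain ⟨h0, h1, h2⟩ := hB q hq
    have hmem : s + pr m p ∈ closer (To m) (s + pr m q) s := mem_closer s h0 (by omega) (by omega)
    have hpos : 0 < (closer (To m) (s + pr m q) s).card := card_pos.2 ⟨_, hmem⟩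
    have hpos' : (0 : ℝ) < (closer (To m) (s + pr m q) s).card := by exact_mod_cast hpos
    rw [div_eq_inv_mul]
    refine mul_le_mul_of_nonneg_right ?_ (hw _)
    unfold cf
    split_ifs with h
    · have : (closer (To m) (s + pr m q) s).card = 1 := by
        have := card_closer_le_one s h1 h2 h
        omega
      rw [this]; norm_num
    · have : ((closer (To m) (s + pr m q) s).card : ℝ) ≤ 2 := by
        exact_mod_cast card_closer_le_two s h1 h2
      rw [one_div]
      exact inv_anti₀ hpos' this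
  · intro u hu
    rw [mem_image] at hu
    obtain ⟨q, hq, rfl⟩ := hu
    obtain ⟨h0, h1, h2⟩ := hB q hq
    refine ⟨?_, mem_closer s h0 (by omega) (by omega)⟩
    intro h
    have h3 : q = 0 := by
      apply shift_inj s h1 h2 (q := 0) (by simp) (by simp)
      rw [h]
      simp [pr]
    obtain ⟨v, _, _, hn⟩ := h0
    rw [h3] at hn
    simp [nrm] at hn

/-- the invariant -/
def Inv (s : ZMod (m + 3) × ZMod (m + 3)) (w : ZMod (m + 3) × ZMod (m + 3) → ℝ) (a b : ℤ → ℝ)
    (R : ℕ) (e : ℤ × ℤ) : Prop :=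
  ∀ p : ℤ × ℤ, p.1.natAbs ≤ R → p.2.natAbs ≤ R → p ≠ 0 → p ≠ e →
    a p.2 ≤ w (s + pr m p) ∧ b p.1 ≤ w (s + pr m p)

theorem Cl_of {p q : ℤ × ℤ} (h : nrm (q - p) = 1) (h' : nrm q + 1 = nrm p) : Cl p q :=
  ⟨q - p, h, by ring, h'⟩

theorem sum_two {α : Type} [DecidableEq α] {x y : α} (h : x ≠ y) (f : α → ℝ) :
    ∑ q ∈ ({x, y} : Finset α), f q = f x + f y := by
  rw [sum_insert (by simpa using h), sum_singleton]

theorem sum_three {α : Type} [DecidableEq α] {x y z : α} (h : x ≠ y) (h' : x ≠ z) (h'' : y ≠ z)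
    (f : α → ℝ) : ∑ q ∈ ({x, y, z} : Finset α), f q = f x + (f y + f z) := by
  rw [sum_insert (by simp [h, h']), sum_two h'']

theorem P_zero (s : ZMod (m + 3) × ZMod (m + 3)) (w : ZMod (m + 3) × ZMod (m + 3) → ℝ)
    (hw : ∀ u, 0 ≤ w u) (a b : ℤ → ℝ) (R : ℕ) (e : ℤ × ℤ) (hR : 1 ≤ R) (hm : 2 * R + 2 ≤ m + 3)
    (hI : Inv s w a b R e) : a 0 + b 0 ≤ P (To m) s w s := by
  have h1 : ∃ q1 : ℤ × ℤ, (q1 = (1, 0) ∨ q1 = (-1, 0)) ∧ q1 ≠ e := by
    by_cases h : e = (1, 0)
    · exact ⟨(-1, 0), Or.inr rfl, by rw [h]; simp⟩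
    · exact ⟨(1, 0), Or.inl rfl, fun h' => h h'.symm⟩
  have h2 : ∃ q2 : ℤ × ℤ, (q2 = (0, 1) ∨ q2 = (0, -1)) ∧ q2 ≠ e := by
    by_cases h : e = (0, 1)
    · exact ⟨(0, -1), Or.inr rfl, by rw [h]; simp⟩
    · exact ⟨(0, 1), Or.inl rfl, fun h' => h h'.symm⟩
  obtain ⟨q1, hq1, he1⟩ := h1
  obtain ⟨q2, hq2, he2⟩ := h2
  have h12 : q1 ≠ q2 := by
    rcases hq1 with rfl | rfl <;> rcases hq2 with rfl | rfl <;> simp
  have h3 := P_ge s w hw 0 {q1, q2} (by
    intro q hq
    rw [mem_insert, mem_singleton] at hq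
    have : q = (1, 0) ∨ q = (-1, 0) ∨ q = (0, 1) ∨ q = (0, -1) := by
      rcases hq with rfl | rfl
      · rcases hq1 with h | h <;> simp [h]
      · rcases hq2 with h | h <;> simp [h]
    rcases this with rfl | rfl | rfl | rfl <;>
    exact ⟨Cl_of (by simp [nrm]) (by simp [nrm]), by simp <;> omega, by simp <;> omega⟩)
  have h4 : s + pr m 0 = s := by simp [pr]
  rw [h4, sum_two h12] at h3
  have h5 := hI q1 (by rcases hq1 with rfl | rfl <;> simp <;> omega)
    (by rcases hq1 with rfl | rfl <;> simp <;> omega) (by rcases hq1 with rfl | rfl <;> simp) he1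
  have h6 := hI q2 (by rcases hq2 with rfl | rfl <;> simp <;> omega)
    (by rcases hq2 with rfl | rfl <;> simp <;> omega) (by rcases hq2 with rfl | rfl <;> simp) he2
  have h7 : cf q1 = 1 := by unfold cf; rcases hq1 with rfl | rfl <;> simp
  have h8 : cf q2 = 1 := by unfold cf; rcases hq2 with rfl | rfl <;> simp
  have h9 : q1.2 = 0 := by rcases hq1 with rfl | rfl <;> rfl
  have h10 : q2.1 = 0 := by rcases hq2 with rfl | rfl <;> rfl
  rw [h7, h8] at h3
  rw [h9] at h5
  rw [h10] at h6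
  linarith [h5.1, h6.2]

theorem step_inv (s : ZMod (m + 3) × ZMod (m + 3)) (w : ZMod (m + 3) × ZMod (m + 3) → ℝ)
    (hw : ∀ u, 0 ≤ w u) (a b : ℤ → ℝ) (ha : ∀ j, 0 ≤ a j) (hb : ∀ j, 0 ≤ b j)
    (R : ℕ) (e : ℤ × ℤ) (he : nrm e ≤ 1) (hm : 2 * R + 2 ≤ m + 3)
    (hI : Inv s w a b R e) (p : ℤ × ℤ) (h1 : p.1.natAbs + 1 ≤ R) (h2 : p.2.natAbs + 1 ≤ R)
    (hp : p ≠ 0) :
    Q a p.2 ≤ P (To m) s w (s + pr m p) ∧ Q b p.1 ≤ P (To m) s w (s + pr m p) := by
  -- the sources of `p`
  have src : ∀ q : ℤ × ℤ, Cl q p → q.1.natAbs ≤ R → q.2.natAbs ≤ R →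
      (a q.2 ≤ w (s + pr m q) ∧ b q.1 ≤ w (s + pr m q)) := by
    intro q hq h3 h4
    obtain ⟨v, hv, _, hn⟩ := hq
    have hp' : 1 ≤ nrm p := by
      rw [Nat.one_le_iff_ne_zero]
      intro h
      apply hp
      simp only [nrm] at h
      exact Prod.ext (by simp only [Prod.fst_zero]; omega) (by simp only [Prod.snd_zero]; omega)
    refine hI q h3 h4 ?_ ?_
    · rintro rfl
      simp [nrm] at hn
    · rintro rfl
      omega
  obtain ⟨x, y⟩ := p
  simp only at h1 h2 ⊢
  have hxy : x ≠ 0 ∨ y ≠ 0 := by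
    by_contra h
    push Not at h
    exact hp (by rw [h.1, h.2]; rfl)
  by_cases hx : x = 0
  · subst hx
    have hy : y ≠ 0 := by tauto
    -- sources (0, y ± 1), (1, y), (-1, y)
    obtain ⟨y', hy', hy1⟩ : ∃ y' : ℤ, (y' = y + 1 ∧ 0 < y ∨ y' = y - 1 ∧ y < 0) ∧ y'.natAbs = y.natAbs + 1 := by
      rcases lt_or_gt_of_ne hy with h | h
      · exact ⟨y - 1, Or.inr ⟨rfl, h⟩, by omega⟩
      · exact ⟨y + 1, Or.inl ⟨rfl, h⟩, by omega⟩
    have c1 : Cl (0, y') (0, y) := Cl_of (by simp only [nrm, Prod.mk_sub_mk]; omega)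
      (by simp only [nrm]; omega)
    have c2 : Cl (1, y) (0, y) := Cl_of (by simp only [nrm, Prod.mk_sub_mk]; omega)
      (by simp only [nrm]; omega)
    have c3 : Cl (-1, y) (0, y) := Cl_of (by simp only [nrm, Prod.mk_sub_mk]; omega)
      (by simp only [nrm]; omega)
    have h3 := P_ge s w hw (0, y) {(0, y'), (1, y), (-1, y)} (by
      intro q hq
      simp only [mem_insert, mem_singleton] at hq
      rcases hq with rfl | rfl | rfl
      · exact ⟨c1, by simp only; omega, by simp only; omega⟩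
      · exact ⟨c2, by simp only; omega, by simp only; omega⟩
      · exact ⟨c3, by simp only; omega, by simp only; omega⟩)
    rw [sum_three (by simp) (by simp) (by simp)] at h3
    have e1 : cf (0, y') = 1 := by simp [cf]
    have e2 : cf (1, y) = 1 / 2 := by simp [cf, hy]
    have e3 : cf (-1, y) = 1 / 2 := by simp [cf, hy]
    rw [e1, e2, e3] at h3
    have s1 := src _ c1 (by simp) (by simp only; omega)
    have s2 := src _ c2 (by simp only; omega) (by simp only; omega)
    have s3 := src _ c3 (by simp only; omega) (by simp only; omega)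
    simp only at s1 s2 s3
    constructor
    · have : Q a y = a y / 2 + a y' / 2 := by
        unfold Q
        rcases hy' with ⟨rfl, h⟩ | ⟨rfl, h⟩
        · rw [if_neg hy, if_pos h]
        · rw [if_neg hy, if_neg (by omega)]
      rw [this]
      have := ha y
      have := ha y'
      linarith [s1.1, s2.1, s3.1]
    · have : Q b 0 = b 0 + b 1 / 2 + b (-1) / 2 := by unfold Q; rw [if_pos rfl]
      rw [this]
      linarith [s1.2, s2.2, s3.2]
  · obtain ⟨x', hx', hx1⟩ : ∃ x' : ℤ, (x' = x + 1 ∧ 0 < x ∨ x' = x - 1 ∧ x < 0) ∧ x'.natAbs = x.natAbs + 1 := by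
      rcases lt_or_gt_of_ne hx with h | h
      · exact ⟨x - 1, Or.inr ⟨rfl, h⟩, by omega⟩
      · exact ⟨x + 1, Or.inl ⟨rfl, h⟩, by omega⟩
    have hx'0 : x' ≠ 0 := by omega
    by_cases hy : y = 0
    · subst hy
      have c1 : Cl (x', 0) (x, 0) := Cl_of (by simp only [nrm, Prod.mk_sub_mk]; omega)
        (by simp only [nrm]; omega)
      have c2 : Cl (x, 1) (x, 0) := Cl_of (by simp only [nrm, Prod.mk_sub_mk]; omega)
        (by simp only [nrm]; omega)
      have c3 : Cl (x, -1) (x, 0) := Cl_of (by simp only [nrm, Prod.mk_sub_mk]; omega)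
        (by simp only [nrm]; omega)
      have h3 := P_ge s w hw (x, 0) {(x', 0), (x, 1), (x, -1)} (by
        intro q hq
        simp only [mem_insert, mem_singleton] at hq
        rcases hq with rfl | rfl | rfl
        · exact ⟨c1, by simp only; omega, by simp only; omega⟩
        · exact ⟨c2, by simp only; omega, by simp only; omega⟩
        · exact ⟨c3, by simp only; omega, by simp only; omega⟩)
      rw [sum_three (by simp) (by simp) (by simp)] at h3
      have e1 : cf (x', 0) = 1 := by simp [cf]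
      have e2 : cf (x, 1) = 1 / 2 := by simp [cf, hx]
      have e3 : cf (x, -1) = 1 / 2 := by simp [cf, hx]
      rw [e1, e2, e3] at h3
      have s1 := src _ c1 (by simp only; omega) (by simp)
      have s2 := src _ c2 (by simp only; omega) (by simp only; omega)
      have s3 := src _ c3 (by simp only; omega) (by simp only; omega)
      simp only at s1 s2 s3
      constructor
      · have : Q a 0 = a 0 + a 1 / 2 + a (-1) / 2 := by unfold Q; rw [if_pos rfl]
        rw [this]
        linarith [s1.1, s2.1, s3.1]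
      · have : Q b x = b x / 2 + b x' / 2 := by
          unfold Q
          rcases hx' with ⟨rfl, h⟩ | ⟨rfl, h⟩
          · rw [if_neg hx, if_pos h]
          · rw [if_neg hx, if_neg (by omega)]
        rw [this]
        have := hb x
        have := hb x'
        linarith [s1.2, s2.2, s3.2]
    · obtain ⟨y', hy', hy1⟩ : ∃ y' : ℤ, (y' = y + 1 ∧ 0 < y ∨ y' = y - 1 ∧ y < 0) ∧ y'.natAbs = y.natAbs + 1 := by
        rcases lt_or_gt_of_ne hy with h | h
        · exact ⟨y - 1, Or.inr ⟨rfl, h⟩, by omega⟩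
        · exact ⟨y + 1, Or.inl ⟨rfl, h⟩, by omega⟩
      have hy'0 : y' ≠ 0 := by omega
      have c1 : Cl (x', y) (x, y) := Cl_of (by simp only [nrm, Prod.mk_sub_mk]; omega)
        (by simp only [nrm]; omega)
      have c2 : Cl (x, y') (x, y) := Cl_of (by simp only [nrm, Prod.mk_sub_mk]; omega)
        (by simp only [nrm]; omega)
      have h3 := P_ge s w hw (x, y) {(x', y), (x, y')} (by
        intro q hq
        simp only [mem_insert, mem_singleton] at hq
        rcases hq with rfl | rfl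
        · exact ⟨c1, by simp only; omega, by simp only; omega⟩
        · exact ⟨c2, by simp only; omega, by simp only; omega⟩)
      rw [sum_two (by simp only [ne_eq, Prod.mk.injEq]; omega)] at h3
      have e1 : cf (x', y) = 1 / 2 := by simp [cf, hy, hx'0]
      have e2 : cf (x, y') = 1 / 2 := by simp [cf, hx, hy'0]
      rw [e1, e2] at h3
      have s1 := src _ c1 (by simp only; omega) (by simp only; omega)
      have s2 := src _ c2 (by simp only; omega) (by simp only; omega)
      simp only at s1 s2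
      constructor
      · have : Q a y = a y / 2 + a y' / 2 := by
          unfold Q
          rcases hy' with ⟨rfl, h⟩ | ⟨rfl, h⟩
          · rw [if_neg hy, if_pos h]
          · rw [if_neg hy, if_neg (by omega)]
        rw [this]
        linarith [s1.1, s2.1]
      · have : Q b x = b x / 2 + b x' / 2 := by
          unfold Q
          rcases hx' with ⟨rfl, h⟩ | ⟨rfl, h⟩
          · rw [if_neg hx, if_pos h]
          · rw [if_neg hx, if_neg (by omega)]
        rw [this]
        linarith [s1.2, s2.2]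

/-- positions along a list of displacements -/
def pos (m : ℕ) : ZMod (m + 3) × ZMod (m + 3) → List (ℤ × ℤ) → List (ZMod (m + 3) × ZMod (m + 3))
  | _, [] => []
  | s, v :: δ => (s + pr m v) :: pos m (s + pr m v) δ

theorem cap_ge (δ : List (ℤ × ℤ)) : ∀ (s : ZMod (m + 3) × ZMod (m + 3))
    (w : ZMod (m + 3) × ZMod (m + 3) → ℝ) (a b : ℤ → ℝ) (R : ℕ) (e : ℤ × ℤ),
    (∀ v ∈ δ, nrm v ≤ 1) → (∀ u, 0 ≤ w u) → (∀ j, 0 ≤ a j) → (∀ j, 0 ≤ b j) →
    2 * δ.length ≤ R → 2 * R + 2 ≤ m + 3 → nrm e ≤ 1 → Inv s w a b R e →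
    lam (δ.map Prod.snd) a + lam (δ.map Prod.fst) b ≤ Cap (To m) (pos m s δ) s w := by
  induction δ with
  | nil =>
    intro s w a b R e _ hw _ _ _ _ _ _
    simp only [List.map_nil, lam, pos]
    have := Cap_nonneg (To m) [] s w hw
    linarith
  | cons v δ ih =>
    intro s w a b R e hδ hw ha hb hR hm he hI
    have hv : nrm v ≤ 1 := hδ v (by simp)
    simp only [List.map_cons, lam, pos]
    rw [List.length_cons] at hR
    have h1 := P_zero s w hw a b R e (by omega) hm hI
    have h2 := Cap_cons (To m) (pos m (s + pr m v) δ) s (s + pr m v) w hw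
    have h3 := ih (s + pr m v) (fun u' => if u' = s then 0 else P (To m) s w u')
      (fun j => Q a (j + v.2)) (fun j => Q b (j + v.1)) (R - 2) (-v)
      (fun v' hv' => hδ v' (by simp [hv'])) ?_ (fun j => Q_nonneg ha _) (fun j => Q_nonneg hb _)
      (by omega) (by omega) ?_ ?_
    · linarith
    · intro u'
      split_ifs
      · exact le_rfl
      · exact P_nonneg _ _ _ hw _
    · simp only [nrm, Prod.fst_neg, Prod.snd_neg] at hv ⊢; omega
    · intro p hp1 hp2 hp0 hpe
      have e1 : s + pr m v + pr m p = s + pr m (p + v) := by rw [pr_add]; ring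
      have hpv : p + v ≠ 0 := by
        intro h
        exact hpe (eq_neg_of_add_eq_zero_left h)
      have hv1 : v.1.natAbs ≤ 1 := by simp only [nrm] at hv; omega
      have hv2 : v.2.natAbs ≤ 1 := by simp only [nrm] at hv; omega
      have b1 : (p + v).1.natAbs + 1 ≤ R := by simp only [Prod.fst_add]; omega
      have b2 : (p + v).2.natAbs + 1 ≤ R := by simp only [Prod.snd_add]; omega
      have hne : s + pr m (p + v) ≠ s := by
        intro h
        apply hpv
        apply shift_inj s (by omega) (by omega) (q := 0) (by simp) (by simp)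
        rw [h]
        simp [pr]
      rw [e1]
      simp only
      rw [if_neg hne]
      have := step_inv s w hw a b ha hb R e he hm hI (p + v) b1 b2 hpv
      simpa only [Prod.fst_add, Prod.snd_add] using this

theorem LW_pos (l : List (ZMod (m + 3) × ZMod (m + 3))) : ∀ s, LW (To m) s l →
    ∃ δ : List (ℤ × ℤ), δ.length = l.length ∧ (∀ v ∈ δ, nrm v ≤ 1) ∧ l = pos m s δ := by
  induction l with
  | nil => intro s _; exact ⟨[], rfl, by simp, rfl⟩
  | cons s' l ih =>
    intro s h
    obtain ⟨h1, h2⟩ := h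
    obtain ⟨δ, hδ1, hδ2, hδ3⟩ := ih s' h2
    obtain ⟨v, hv, hv'⟩ : ∃ v : ℤ × ℤ, nrm v ≤ 1 ∧ s' = s + pr m v := by
      rcases h1 with rfl | h1
      · exact ⟨0, by simp [nrm], by simp [pr]⟩
      · obtain ⟨v, hv, hv'⟩ := (To_adj _ _).1 h1
        exact ⟨v, hv.le, hv'⟩
    refine ⟨v :: δ, by simp [hδ1], ?_, ?_⟩
    · intro v' hv'
      rw [List.mem_cons] at hv'
      rcases hv' with rfl | hv'
      · exact hv
      · exact hδ2 v' hv'
    · simp only [pos]
      rw [← hv', ← hδ3]

theorem cap_one (s : ZMod (m + 3) × ZMod (m + 3)) (l : List (ZMod (m + 3) × ZMod (m + 3)))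
    (hl : LW (To m) s l) (hm : 4 * l.length + 2 ≤ m + 3) :
    ∑ j ∈ range l.length, 2 * Real.sqrt ((j : ℝ) / 12) ≤ ∑ u, (1 - esc (To m) l s u) := by
  obtain ⟨δ, h1, h2, h3⟩ := LW_pos l s hl
  have h4 := cap_ge δ s (fun _ => 1) (fun _ => 1) (fun _ => 1) (2 * δ.length) 0 h2 (by simp) (by simp)
    (by simp) le_rfl (by omega) (by simp [nrm]) (fun p _ _ _ _ => ⟨le_rfl, le_rfl⟩)
  have h5 := lam_total δ (fun v hv => by
    have := h2 v hv
    simp only [nrm] at this
    rw [Int.abs_eq_natAbs, Int.abs_eq_natAbs]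
    omega)
  rw [← h3] at h4
  simp only [Cap, one_mul] at h4
  rw [← h1]
  exact h5.trans h4

end Pool.Agent.Helper57K9.Zomb
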