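import Mathlib
import Pool.Agent.Helper57K9.Zomb.Mass

/-!
# The upper bound for the zombie number of the torus
-/

set_option autoImplicit false

namespace Pool.Agent.Helper57K9.Zomb

open Finset SimpleGraph

variable {m : ℕ}

theorem nb_card (s : ZMod (m + 3) × ZMod (m + 3)) : (nb (To m) s).card ≤ 5 := by
  have : nb (To m) s ⊆ {s, s + pr m (1, 0), s + pr m (-1, 0), s + pr m (0, 1), s + pr m (0, -1)} := by
    intro w hw
    simp only [nb, mem_filter, mem_univ, true_and] at hw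
    rcases hw with rfl | hw
    · simp
    · obtain ⟨v, hv, rfl⟩ := (To_adj _ _).1 hw
      rcases nrm_one hv with rfl | rfl | rfl | rfl <;> simp
  exact (card_le_card this).trans card_le_five

theorem sum_esc_le (s : ZMod (m + 3) × ZMod (m + 3)) (l : List (ZMod (m + 3) × ZMod (m + 3)))
    (hl : LW (To m) s l) (hlen : l.length = if m + 3 < 16 then 0 else (m + 3) / 8) :
    ∑ u, esc (To m) l s u ≤
      ((m + 3 : ℕ) : ℝ) ^ 2 - ((m + 3 : ℕ) : ℝ) * Real.sqrt ((m + 3 : ℕ) : ℝ) / 640 := by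
  have hcard : (∑ u : ZMod (m + 3) × ZMod (m + 3), (1 : ℝ)) = ((m + 3 : ℕ) : ℝ) ^ 2 := by
    simp [sq]
  have h1 : ∑ u, esc (To m) l s u = ((m + 3 : ℕ) : ℝ) ^ 2 - ∑ u, (1 - esc (To m) l s u) := by
    rw [sum_sub_distrib, hcard]; ring
  rw [h1]
  set N : ℝ := ((m + 3 : ℕ) : ℝ) with hN
  have hN0 : 0 ≤ N := Nat.cast_nonneg _
  suffices h : N * Real.sqrt N / 640 ≤ ∑ u, (1 - esc (To m) l s u) by linarith
  by_cases hm : m + 3 < 16
  · rw [if_pos hm] at hlen
    rw [List.length_eq_zero_iff] at hlen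
    subst hlen
    have h2 : (1 : ℝ) ≤ ∑ u, (1 - esc (To m) [] s u) := by
      have := single_le_sum (f := fun u => 1 - esc (To m) [] s u)
        (fun u _ => by have := esc_le_one (To m) [] s u; linarith) (mem_univ s)
      simpa [esc] using this
    have h3 : N ≤ 16 := by
      have : m + 3 ≤ 16 := hm.le
      rw [hN]; exact_mod_cast this
    have h4 : Real.sqrt N ≤ 4 := by
      rw [Real.sqrt_le_left (by norm_num)]; linarith
    have h5 : N * Real.sqrt N ≤ 16 * 4 := mul_le_mul h3 h4 (Real.sqrt_nonneg _) (by norm_num)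
    linarith
  · rw [if_neg hm] at hlen
    have h2 := cap_one s l hl (by omega)
    refine le_trans ?_ h2
    rw [hlen]
    set T := (m + 3) / 8 with hT
    have hT2 : 2 ≤ T := by omega
    refine le_trans ?_ (sum_sqrt T hT2)
    have h3 : N / 16 ≤ T := by
      have : m + 3 ≤ 16 * T := by omega
      have : N ≤ 16 * T := by rw [hN]; exact_mod_cast this
      linarith
    have h4 : Real.sqrt N / 4 ≤ Real.sqrt T := by
      have : Real.sqrt (N / 16) ≤ Real.sqrt T := Real.sqrt_le_sqrt h3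
      rw [Real.sqrt_div hN0, show (16 : ℝ) = 4 ^ 2 by norm_num, Real.sqrt_sq (by norm_num)] at this
      exact this
    have h5 : N / 16 * (Real.sqrt N / 4) ≤ T * Real.sqrt T :=
      mul_le_mul h3 h4 (by positivity) (by positivity)
    linarith

theorem upper_aux (k : ℕ)
    (hk : 2560 * (((m + 3 : ℕ) : ℝ) * Real.sqrt ((m + 3 : ℕ) : ℝ)) ≤ k) :
    survivalProb (To m) k ≤ Real.exp (-((m + 3 : ℕ) : ℝ)) := by
  set N : ℝ := ((m + 3 : ℕ) : ℝ) with hN
  have hN3 : (3 : ℝ) ≤ N := by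
    have : 3 ≤ m + 3 := by omega
    rw [hN]; exact_mod_cast this
  have hN0 : 0 < N := by linarith
  set r := Real.sqrt N with hr
  have hr0 : 0 < r := Real.sqrt_pos.2 hN0
  have hr2 : r ^ 2 = N := Real.sq_sqrt hN0.le
  set T : ℕ := if m + 3 < 16 then 0 else (m + 3) / 8 with hT
  have hTN : (T : ℝ) ≤ N / 2 := by
    have : 2 * T ≤ m + 3 := by rw [hT]; split_ifs <;> omega
    have : (2 : ℝ) * T ≤ N := by rw [hN]; exact_mod_cast this
    linarith
  have hr1 : 1 ≤ r := by
    rw [hr]; exact Real.one_le_sqrt.2 (by linarith)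
  have hE : 0 ≤ N ^ 2 - N * r / 640 := by
    rw [← hr2]
    have : r ^ 3 ≤ r ^ 4 := pow_le_pow_right₀ hr1 (by norm_num)
    nlinarith [pow_pos hr0 3]
  have h1 := survivalProb_le (To m) (D := 5) nb_card T (N ^ 2 - N * r / 640) hE
    (fun s l hl hw => sum_esc_le s l hw hl) k
  refine h1.trans ?_
  have hcard : (Fintype.card (ZMod (m + 3) × ZMod (m + 3)) : ℝ) = N ^ 2 := by
    rw [Fintype.card_prod, ZMod.card, hN]; push_cast; ring
  rw [hcard]
  have h2 : (N ^ 2 - N * r / 640) / N ^ 2 = 1 - 1 / (640 * r) := by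
    rw [← hr2]
    field_simp
  rw [h2]
  have h3 : (1 - 1 / (640 * r)) ^ k ≤ Real.exp (-(4 * N)) := by
    have h4 : 0 ≤ 1 - 1 / (640 * r) := by
      rw [← h2]; positivity
    calc (1 - 1 / (640 * r)) ^ k ≤ (Real.exp (-(1 / (640 * r)))) ^ k := by
          apply pow_le_pow_left₀ h4
          have := Real.add_one_le_exp (-(1 / (640 * r)))
          linarith
      _ = Real.exp (-(k / (640 * r))) := by
          rw [← Real.exp_nat_mul]; congr 1; ring
      _ ≤ _ := by
          apply Real.exp_le_exp.2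
          rw [neg_le_neg_iff, le_div_iff₀ (by positivity)]
          calc 4 * N * (640 * r) = 2560 * (N * r) := by ring
            _ ≤ _ := hk
  have h5 : N ^ 2 ≤ Real.exp (2 * N) := by
    have : N ≤ Real.exp N := by have := Real.add_one_le_exp N; linarith
    calc N ^ 2 ≤ (Real.exp N) ^ 2 := pow_le_pow_left₀ hN0.le this 2
      _ = _ := by rw [← Real.exp_nat_mul]; norm_num
  have h6 : ((5 : ℕ) : ℝ) ^ T ≤ Real.exp N := by
    have h7 : (5 : ℝ) ≤ Real.exp 2 := by
      have h8 := Real.exp_one_gt_d9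
      have h9 : Real.exp 2 = Real.exp 1 ^ 2 := by rw [← Real.exp_nat_mul]; norm_num
      rw [h9]
      nlinarith
    calc ((5 : ℕ) : ℝ) ^ T ≤ (Real.exp 2) ^ T := by
          apply pow_le_pow_left₀ (by norm_num); exact_mod_cast h7
      _ = Real.exp (T * 2) := by rw [← Real.exp_nat_mul]
      _ ≤ _ := Real.exp_le_exp.2 (by linarith)
  calc N ^ 2 * ((5 : ℕ) : ℝ) ^ T * (1 - 1 / (640 * r)) ^ k
      ≤ Real.exp (2 * N) * Real.exp N * Real.exp (-(4 * N)) := by
        apply mul_le_mul _ h3 _ (by positivity)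
        · exact mul_le_mul h5 h6 (by positivity) (by positivity)
        · have h4 : 0 ≤ 1 - 1 / (640 * r) := by
            rw [← h2]; positivity
          positivity
    _ = Real.exp (-N) := by rw [← Real.exp_add, ← Real.exp_add]; congr 1; ring

/-- **Upper bound.** -/
theorem upper (n : ℕ) (hn : 3 ≤ n) (k : ℕ) (hk : 2560 * ((n : ℝ) * Real.sqrt n) ≤ k) :
    survivalProb (torus n) k ≤ Real.exp (-n) := by
  obtain ⟨m, rfl⟩ : ∃ m, n = m + 3 := ⟨n - 3, by omega⟩
  have h : survivalProb (torus (m + 3)) k = survivalProb (To m) k := rfl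
  rw [h]
  exact upper_aux k hk

theorem zombieNumber_le (n : ℕ) (hn : 3 ≤ n) :
    (zombieNumber (torus n) : ℝ) ≤ 2561 * ((n : ℝ) * Real.sqrt n) := by
  have h1 : zombieNumber (torus n) ≤ ⌈2560 * ((n : ℝ) * Real.sqrt n)⌉₊ := by
    apply Nat.sInf_le
    refine (upper n hn _ (Nat.le_ceil _)).trans ?_
    calc Real.exp (-n) ≤ Real.exp (-1) := by
          apply Real.exp_le_exp.2
          have : (3 : ℝ) ≤ n := by exact_mod_cast hn
          linarith
      _ ≤ 1 / 2 := by
        rw [Real.exp_neg, one_div]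
        apply inv_anti₀ (by norm_num)
        have := Real.exp_one_gt_d9
        linarith
  have h2 : (3 : ℝ) ≤ n := by exact_mod_cast hn
  have h3 : 1 ≤ Real.sqrt n := Real.one_le_sqrt.2 (by linarith)
  have h4 : (⌈2560 * ((n : ℝ) * Real.sqrt n)⌉₊ : ℝ) < 2560 * ((n : ℝ) * Real.sqrt n) + 1 :=
    Nat.ceil_lt_add_one (by positivity)
  have h5 : (zombieNumber (torus n) : ℝ) ≤ (⌈2560 * ((n : ℝ) * Real.sqrt n)⌉₊ : ℝ) := by
    exact_mod_cast h1
  nlinarith

end Pool.Agent.Helper57K9.Zomb
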